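import Pool.Agent.Y213.CT.Stm

/-!
# Project CT (helper213), job CT-UNI

Bounded embeddings of the completions `F_w` in the algebraic closure of `K_v`: conjugation
(`gal : StGal`) and uniqueness (`uni : StUni`).
-/


namespace Pool.Agent.Y37.CT

open NumberField IsDedekindDomain HeightOneSpectrum Pool.Agent.Y213.CT

theorem gal : StGal := by
  intro K F _ _ _ _ _ v w κ σ ⟨h1, h2⟩
  refine ⟨fun x => ?_, fun x hx => ?_⟩
  · rw [RingHom.comp_apply, h1 x]
    exact σ.commutes _
  · rw [RingHom.comp_apply]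
    have h3 := spectralNorm_eq_of_equiv σ (κ x)
    have h4 : (σ : AlgebraicClosure (v.adicCompletion K) →+*
      AlgebraicClosure (v.adicCompletion K)) (κ x) = σ (κ x) := rfl
    rw [h4, ← h3]
    exact h2 x hx

variable {K F : Type} [Field K] [NumberField K] [Field F] [NumberField F] [Algebra K F]

theorem ult (v : HeightOneSpectrum (𝓞 K)) : IsUltrametricDist (v.adicCompletion K) :=
  inferInstance

/-- small elements have small images -/
theorem small {v : HeightOneSpectrum (𝓞 K)} {w : HeightOneSpectrum (𝓞 F)}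
    {κ : w.adicCompletion F →+* AlgebraicClosure (v.adicCompletion K)} (h : Good v w κ)
    {π : K} (hπ : π ≠ 0) (N : ℕ) {x : w.adicCompletion F}
    (hx : ‖x‖ ≤ ‖algebraMap F (w.adicCompletion F) (algebraMap K F π)‖ ^ N) :
    spectralNorm (v.adicCompletion K) (AlgebraicClosure (v.adicCompletion K)) (κ x) ≤
      ‖algebraMap K (v.adicCompletion K) π‖ ^ N := by
  have hu := ult v
  set πw := algebraMap F (w.adicCompletion F) (algebraMap K F π) with hπw
  have hw0 : πw ≠ 0 := (map_ne_zero _).2 ((map_ne_zero _).2 hπ)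
  have hn : 0 < ‖πw‖ ^ N := pow_pos (norm_pos_iff.2 hw0) N
  have h1 : ‖x / πw ^ N‖ ≤ 1 := by
    rw [norm_div, norm_pow, div_le_one hn]
    exact hx
  have h2 := h.2 _ h1
  have h3 : κ x = (algebraMap K (v.adicCompletion K) π) ^ N • κ (x / πw ^ N) := by
    rw [Algebra.smul_def, map_pow, ← h.1 π, ← map_pow, ← map_mul,
      mul_div_cancel₀ _ (pow_ne_zero N hw0)]
  rw [h3, spectralNorm_smul _ (Algebra.IsAlgebraic.isAlgebraic _), coe_nnnorm, norm_pow]
  exact mul_le_of_le_one_right (by positivity) h2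

/-- an element of `K` of small norm -/
theorem exists_pi (v : HeightOneSpectrum (𝓞 K)) :
    ∃ π : K, π ≠ 0 ∧ ‖algebraMap K (v.adicCompletion K) π‖ < 1 := by
  obtain ⟨a, ha, ha0⟩ := Submodule.exists_mem_ne_zero_of_ne_bot v.ne_bot
  refine ⟨(a : K), ?_, ?_⟩
  · intro h
    exact ha0 (RingOfIntegers.ext h)
  · exact (FinitePlace.norm_lt_one_iff_mem K v a).2 ha

/-- the place is determined by the spectral norm -/
theorem mem_iff {v : HeightOneSpectrum (𝓞 K)} {w : HeightOneSpectrum (𝓞 F)}
    {κ : w.adicCompletion F →+* AlgebraicClosure (v.adicCompletion K)} (h : Good v w κ)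
    (x : 𝓞 F) : x ∈ w.asIdeal ↔
      spectralNorm (v.adicCompletion K) (AlgebraicClosure (v.adicCompletion K))
        (κ (algebraMap F (w.adicCompletion F) (x : F))) < 1 := by
  have hu := ult v
  obtain ⟨π, hπ, hπ1⟩ := exists_pi v
  set y := algebraMap F (w.adicCompletion F) (x : F) with hy
  constructor
  · intro hx
    have h1 : ‖y‖ < 1 := (FinitePlace.norm_lt_one_iff_mem F w x).2 hx
    set πw := algebraMap F (w.adicCompletion F) (algebraMap K F π) with hπw
    have hw0 : πw ≠ 0 := (map_ne_zero _).2 ((map_ne_zero _).2 hπ)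
    obtain ⟨N, hN⟩ := exists_pow_lt_of_lt_one (norm_pos_iff.2 hw0) h1
    have h2 : ‖y ^ (N + 1)‖ ≤ ‖πw‖ ^ 1 := by
      rw [norm_pow, pow_one, pow_succ]
      exact (mul_le_of_le_one_right (by positivity) h1.le).trans hN.le
    have h3 := small h hπ 1 h2
    rw [map_pow, isPowMul_spectralNorm _ (by omega : 1 ≤ N + 1), pow_one] at h3
    by_contra hcon
    rw [not_lt] at hcon
    have := one_le_pow₀ hcon (n := N + 1)
    linarith
  · intro hlt
    by_contra hx
    have h1 : ‖y‖ = 1 := (FinitePlace.norm_eq_one_iff_notMem F w x).2 hx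
    have hy0 : y ≠ 0 := by
      intro h0
      rw [h0, norm_zero] at h1
      norm_num at h1
    have h2 := h.2 y⁻¹ (by rw [norm_inv, h1, inv_one])
    have h3 := spectralNorm_mul (K := v.adicCompletion K)
      (Algebra.IsAlgebraic.isAlgebraic (κ y)) (Algebra.IsAlgebraic.isAlgebraic (κ y⁻¹))
    rw [← map_mul, mul_inv_cancel₀ hy0, map_one, spectralNorm_one] at h3
    have h4 : spectralNorm (v.adicCompletion K) (AlgebraicClosure (v.adicCompletion K)) (κ y) *
        spectralNorm (v.adicCompletion K) (AlgebraicClosure (v.adicCompletion K)) (κ y⁻¹) ≤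
        spectralNorm (v.adicCompletion K) (AlgebraicClosure (v.adicCompletion K)) (κ y) :=
      mul_le_of_le_one_right (spectralNorm_nonneg _) h2
    linarith

/-- two bounded embeddings which agree on `F` are equal -/
theorem eq_of_agree {v : HeightOneSpectrum (𝓞 K)} {w : HeightOneSpectrum (𝓞 F)}
    {κ κ' : w.adicCompletion F →+* AlgebraicClosure (v.adicCompletion K)} (h : Good v w κ)
    (h' : Good v w κ') (ha : ∀ x : F, κ (algebraMap F (w.adicCompletion F) x) =
      κ' (algebraMap F (w.adicCompletion F) x)) : κ = κ' := by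
  have hu := ult v
  obtain ⟨π, hπ, hπ1⟩ := exists_pi v
  refine RingHom.ext fun x => ?_
  by_contra hne
  have hpos : 0 < spectralNorm (v.adicCompletion K) (AlgebraicClosure (v.adicCompletion K))
      (κ x - κ' x) :=
    spectralNorm_zero_lt (sub_ne_zero.2 hne) (Algebra.IsAlgebraic.isAlgebraic _)
  obtain ⟨N, hN⟩ := exists_pow_lt_of_lt_one hpos hπ1
  set πw := algebraMap F (w.adicCompletion F) (algebraMap K F π) with hπw
  have hw0 : πw ≠ 0 := (map_ne_zero _).2 ((map_ne_zero _).2 hπ)
  have hn : 0 < ‖πw‖ ^ N := pow_pos (norm_pos_iff.2 hw0) N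
  obtain ⟨y, hy⟩ := (HeightOneSpectrum.denseRange_algebraMap F w).exists_dist_lt x hn
  rw [dist_eq_norm] at hy
  have h1 := small h hπ N hy.le
  have h2 := small h' hπ N hy.le
  have e : κ x - κ' x = κ (x - algebraMap F (w.adicCompletion F) y) +
      -κ' (x - algebraMap F (w.adicCompletion F) y) := by
    rw [map_sub, map_sub, ha y]
    ring
  have h3 := isNonarchimedean_spectralNorm (K := v.adicCompletion K)
    (κ (x - algebraMap F (w.adicCompletion F) y)) (-κ' (x - algebraMap F (w.adicCompletion F) y))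
  rw [← e, spectralNorm_neg (Algebra.IsAlgebraic.isAlgebraic _)] at h3
  have h4 := h3.trans (max_le h1 h2)
  linarith

theorem uni : StUni := by
  intro K F _ _ _ _ _ v w w' κ κ' h h' ha
  have hw : w = w' := by
    apply HeightOneSpectrum.ext
    ext x
    rw [mem_iff h x, mem_iff h' x, ha]
  subst hw
  exact ⟨rfl, heq_of_eq (eq_of_agree h h' ha)⟩

end Pool.Agent.Y37.CT
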